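import Pool.Agent.BEH.Stmts

/-!
# Squad BEH, row EGK (helper44): weak eigenfunctions and the eigenbasis
-/

set_option autoImplicit false

namespace Pool.Agent.BEH.H44

open Set Filter Topology MeasureTheory
open scoped InnerProductSpace ENNReal
open Pool.Agent.BE01 Pool.Agent.BEL Pool.Agent.BEH

noncomputable section

variable {d : ℕ} {Ω : Set (En d)}

/-- The class of the gradient of a test function. -/
theorem grad_mem (ψ : En d → ℝ) (hψ : Tst Ω ψ) :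
    ∃ G : VV Ω, (G : Lp (En d) 2 (mu Ω)) =ᵐ[mu Ω] gradient ψ := by
  have hc : Continuous (gradient ψ) := by
    have h1 : Continuous (fderiv ℝ ψ) := hψ.1.continuous_fderiv (by simp)
    exact (InnerProductSpace.toDual ℝ (En d)).symm.continuous.comp h1
  have hs : HasCompactSupport (gradient ψ) := by
    have h3 : HasCompactSupport (fderiv ℝ ψ) := hψ.2.1.fderiv ℝ
    exact h3.comp_left (map_zero _)
  have hm : MemLp (gradient ψ) 2 (mu Ω) := (hc.memLp_of_hasCompactSupport hs).restrict Ω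
  refine ⟨⟨hm.toLp _, ?_⟩, hm.coeFn_toLp⟩
  exact Submodule.le_topologicalClosure _ (Submodule.subset_span ⟨ψ, hψ, hm.coeFn_toLp⟩)

/-- the two sides of the weak form for a test function -/
theorem inner_grad (G G' : VV Ω) (ψ : En d → ℝ)
    (h : (G' : Lp (En d) 2 (mu Ω)) =ᵐ[mu Ω] gradient ψ) :
    ⟪G, G'⟫_ℝ = ∫ x, ⟪(G : Lp (En d) 2 (mu Ω)) x, gradient ψ x⟫_ℝ ∂(mu Ω) := by
  rw [Submodule.coe_inner, L2.inner_def]
  refine integral_congr_ae ?_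
  filter_upwards [h] with x hx
  rw [hx]

theorem inner_val (u v : Lp ℝ 2 (mu Ω)) (ψ : En d → ℝ) (h : v =ᵐ[mu Ω] ψ) :
    ⟪u, v⟫_ℝ = ∫ x, u x * ψ x ∂(mu Ω) := by
  rw [L2.inner_def]
  refine integral_congr_ae ?_
  filter_upwards [h] with x hx
  rw [hx, real_inner_comm]
  simp

/-- the weak form for all elements of `VV Ω` -/
theorem weak {ι : VV Ω →L[ℝ] Lp ℝ 2 (mu Ω)} (hι : Emb2 Ω ι) (u : Lp ℝ 2 (mu Ω)) (G : VV Ω)
    (μ : ℝ) (h : ∀ ψ, Tst Ω ψ →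
      ∫ x, ⟪(G : Lp (En d) 2 (mu Ω)) x, gradient ψ x⟫_ℝ ∂(mu Ω) = μ * ∫ x, u x * ψ x ∂(mu Ω)) :
    ∀ G' : VV Ω, ⟪G, G'⟫_ℝ = μ * ⟪u, ι G'⟫_ℝ := by
  let L : VV Ω →L[ℝ] ℝ := innerSL ℝ G - μ • (innerSL ℝ u).comp ι
  have hL : ∀ G' : VV Ω, L G' = ⟪G, G'⟫_ℝ - μ * ⟪u, ι G'⟫_ℝ := by
    intro G'
    rfl
  have hK : IsClosed ((LinearMap.ker L.toLinearMap : Submodule ℝ (VV Ω)) : Set (VV Ω)) :=
    L.isClosed_ker
  have hcl : IsClosed (VV Ω : Set (Lp (En d) 2 (mu Ω))) :=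
    Submodule.isClosed_topologicalClosure _
  have hle : VV Ω ≤ (LinearMap.ker L.toLinearMap).map (VV Ω).subtype := by
    refine Submodule.topologicalClosure_minimal _ ?_ ?_
    · rw [Submodule.span_le]
      rintro x ⟨ψ, hψ, hx⟩
      have hxV : x ∈ VV Ω := Submodule.le_topologicalClosure _ (Submodule.subset_span ⟨ψ, hψ, hx⟩)
      refine ⟨⟨x, hxV⟩, ?_, rfl⟩
      show L ⟨x, hxV⟩ = 0
      rw [hL, inner_grad G ⟨x, hxV⟩ ψ hx, h ψ hψ, inner_val u _ ψ (hι ψ hψ ⟨x, hxV⟩ hx), sub_self]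
    · exact hcl.isClosedEmbedding_subtypeVal.isClosedMap _ hK
  intro G'
  obtain ⟨K, hK1, hK2⟩ := hle G'.2
  have e : K = G' := Subtype.ext hK2
  rw [e] at hK1
  have h0 : L G' = 0 := hK1
  rw [hL] at h0
  linarith

/-- elements of `L^2` with the same coefficients are equal -/
theorem ext_b (b : HilbertBasis ℕ ℝ (Lp ℝ 2 (mu Ω))) (u v : Lp ℝ 2 (mu Ω))
    (h : ∀ k, ⟪b k, u⟫_ℝ = ⟪b k, v⟫_ℝ) : u = v := by
  apply b.repr.injective
  ext k
  rw [b.repr_apply_apply, b.repr_apply_apply, h k]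

theorem ext_e (e : HilbertBasis ℕ ℝ (VV Ω)) (u v : VV Ω)
    (h : ∀ k, ⟪e k, u⟫_ℝ = ⟪e k, v⟫_ℝ) : u = v := by
  apply e.repr.injective
  ext k
  rw [e.repr_apply_apply, e.repr_apply_apply, h k]

theorem ek (b : HilbertBasis ℕ ℝ (Lp ℝ 2 (mu Ω))) (j k : ℕ) :
    ⟪b j, b k⟫_ℝ = if j = k then 1 else 0 :=
  orthonormal_iff_ite.1 b.orthonormal j k

theorem ee (e : HilbertBasis ℕ ℝ (VV Ω)) (j k : ℕ) : ⟪e j, e k⟫_ℝ = if j = k then 1 else 0 :=
  orthonormal_iff_ite.1 e.orthonormal j k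

theorem egk : EgkStmt := by
  intro d Ω ι b e om hO
  have hpos := hO.spec.pos
  have hrel := hO.spec.rel
  -- the values of `ι` on the basis
  have hιe : ∀ k, ι (e k) = (om k)⁻¹ • b k := by
    intro k
    apply ext_b b
    intro j
    rw [hrel, inner_smul_right, ek, ee]
    by_cases hjk : j = k
    · rw [hjk]
    · rw [if_neg hjk, mul_zero, mul_zero]
  -- the equation for the coefficients
  have hco : ∀ (μ : ℝ) (u : Lp ℝ 2 (mu Ω)), IsEig Ω μ u → ∃ G : VV Ω, u = ι G ∧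
      ∀ k, ⟪e k, G⟫_ℝ * (om k ^ 2 - μ) = 0 := by
    rintro μ u ⟨G, hG, hw⟩
    obtain ⟨hGV, hu⟩ := (hO.grf u G).1 hG
    refine ⟨⟨G, hGV⟩, hu, ?_⟩
    intro k
    have h1 := weak hO.emb u ⟨G, hGV⟩ μ hw (e k)
    have h2 : ⟪u, ι (e k)⟫_ℝ = (om k)⁻¹ * ((om k)⁻¹ * ⟪e k, (⟨G, hGV⟩ : VV Ω)⟫_ℝ) := by
      rw [hιe, inner_smul_right, real_inner_comm, hu, hrel]
    rw [h2, real_inner_comm] at h1
    have h3 := hpos k
    have h4 : om k ≠ 0 := h3.ne'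
    have h5 : ⟪e k, (⟨G, hGV⟩ : VV Ω)⟫_ℝ * om k ^ 2 = μ * ⟪e k, (⟨G, hGV⟩ : VV Ω)⟫_ℝ := by
      calc ⟪e k, (⟨G, hGV⟩ : VV Ω)⟫_ℝ * om k ^ 2
          = (μ * ((om k)⁻¹ * ((om k)⁻¹ * ⟪e k, (⟨G, hGV⟩ : VV Ω)⟫_ℝ))) * om k ^ 2 := by
            rw [← h1]
        _ = μ * ⟪e k, (⟨G, hGV⟩ : VV Ω)⟫_ℝ := by
            field_simp
    linarith
  refine ⟨?_, ?_, ?_⟩
  · intro k
    have hι : ι (om k • e k) = b k := by
      rw [map_smul, hιe, smul_smul, mul_inv_cancel₀ (hpos k).ne', one_smul]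
    refine ⟨((om k • e k : VV Ω) : Lp (En d) 2 (mu Ω)), (hO.grf _ _).2 ⟨(om k • e k).2, ?_⟩, ?_⟩
    · exact hι.symm
    · intro ψ hψ
      obtain ⟨G', hG'⟩ := grad_mem ψ hψ
      have h5 : ⟪(om k • e k : VV Ω), G'⟫_ℝ = om k * ⟪e k, G'⟫_ℝ :=
        real_inner_smul_left (e k) G' (om k)
      rw [← inner_grad (om k • e k) G' ψ hG', ← inner_val (b k) (ι G') ψ (hO.emb ψ hψ G' hG'),
        hrel, h5]
      have h4 : om k ≠ 0 := (hpos k).ne'
      field_simp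
  · intro μ u hu hne
    obtain ⟨G, hG, hk⟩ := hco μ u hu
    by_contra hcon
    push Not at hcon
    apply hne
    have h0 : G = 0 := by
      apply ext_e e
      intro k
      rw [inner_zero_right]
      rcases mul_eq_zero.1 (hk k) with h | h
      · exact h
      · exact absurd (by linarith) (hcon k)
    rw [hG, h0, map_zero]
  · intro h01 u hu
    obtain ⟨G, hG, hk⟩ := hco _ u hu
    refine ⟨⟪e 0, G⟫_ℝ * (om 0)⁻¹, ?_⟩
    have h0 : G = ⟪e 0, G⟫_ℝ • e 0 := by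
      apply ext_e e
      intro k
      have h5 : ⟪e k, (⟪e 0, G⟫_ℝ • e 0 : VV Ω)⟫_ℝ = ⟪e 0, G⟫_ℝ * ⟪e k, e 0⟫_ℝ :=
        real_inner_smul_right (e k) (e 0) _
      rw [h5, ee]
      by_cases hk0 : k = 0
      · rw [if_pos hk0, hk0, mul_one]
      · rw [if_neg hk0, mul_zero]
        rcases mul_eq_zero.1 (hk k) with h | h
        · exact h
        · exfalso
          have h1 : om 1 ≤ om k := hO.spec.mono (Nat.one_le_iff_ne_zero.2 hk0)
          have h2 := hpos 0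
          nlinarith
    rw [hG]
    conv_lhs => rw [h0]
    rw [map_smul, hιe, smul_smul]

end

end Pool.Agent.BEH.H44
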